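import Pool.Agent.V5helper33.ZM.Mx
import Pool.Agent.Results.MP_3d0d30_nt.ReductionsAndLargeValues

set_option autoImplicit false

/-!
# Good orders propagate upwards (helper33)
-/

namespace Pool.Agent.V5helper33.ZM

open Complex Set Filter Topology MeasureTheory
open Pool.Agent.Results.MP_3d0d30_nt.ReductionsAndLargeValues

namespace Rd

lemma M_zz (k T : ℝ) : M k T = ∫ t in (0:ℝ)..T, zz t ^ (2 * k) := rfl

/-- the maximum and the moments -/
theorem max_bound {T j t : ℝ} (hT : 1000 ≤ T) (hj : 2 ≤ j) (ht : t ∈ Icc (0:ℝ) T) :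
    Z t ^ (2 * j) ≤ max 1 (1000 * j ^ 2 * Real.log T ^ 2 * M j T) := by
  have h := all_le (t := t) (p := 2 * j) hT ht (by linarith)
  have e : 250 * (2 * j) ^ 2 * Real.log T ^ 2 = 1000 * j ^ 2 * Real.log T ^ 2 := by ring
  rw [e] at h
  exact h

lemma llog_ge {T : ℝ} (hT : 1000 ≤ T) : (19:ℝ) / 10 ≤ Real.log (Real.log T) := loglog_ge hT

/-- the bound for the maximum from one good order -/
lemma max_good {T j t : ℝ} (hT : 1000 ≤ T) (hj : 2 ≤ j) (hg : Good j T)
    (ht : t ∈ Icc (0:ℝ) T) :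
    Z t ^ (2 * j) ≤ 1000 * j ^ 2 * Real.log T ^ 2 * (T * Real.log T ^ (j ^ 2)) := by
  have hl := log_ge hT
  have hL1 : 1 ≤ Real.log T := by linarith
  have h1 := max_bound hT hj ht
  have h3 : (1:ℝ) ≤ Real.log T ^ (j ^ 2) := Real.one_le_rpow hL1 (by positivity)
  refine h1.trans (_root_.max_le ?_ ?_)
  · have h2 : (1:ℝ) ≤ Real.log T ^ 2 := by nlinarith
    have h4 : (1:ℝ) ≤ 1000 * j ^ 2 := by nlinarith
    have h5 : (1:ℝ) ≤ T * Real.log T ^ (j ^ 2) := by nlinarith
    have h6 : (1:ℝ) ≤ 1000 * j ^ 2 * Real.log T ^ 2 := by nlinarith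
    nlinarith
  · have h2 : M j T ≤ T * Real.log T ^ (j ^ 2) := hg
    gcongr

/-- **One good order gives all larger orders.** -/
theorem prop {T j k : ℝ} (hT : 1000 ≤ T) (hj : 2 ≤ j) (hjk : j ≤ k)
    (h : 1000 * j ^ 2 * Real.log T ^ 2 * T ≤ Real.log T ^ (j * k)) (hg : Good j T) :
    Good k T := by
  have hl := log_ge hT
  have hl0 : 0 < Real.log T := by linarith
  refine reflect (κ := (j + k) / 2) hT ?_ (by linarith) hg hjk (by linarith)
  intro t ht
  have h1 := max_good hT hj hg ht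
  have h2 : Z t ^ (2 * j) ≤ (Real.log T ^ ((j + k) / 2)) ^ (2 * j) := by
    refine h1.trans ?_
    calc 1000 * j ^ 2 * Real.log T ^ 2 * (T * Real.log T ^ (j ^ 2))
        = (1000 * j ^ 2 * Real.log T ^ 2 * T) * Real.log T ^ (j ^ 2) := by ring
      _ ≤ Real.log T ^ (j * k) * Real.log T ^ (j ^ 2) := by gcongr
      _ = (Real.log T ^ ((j + k) / 2)) ^ (2 * j) := by
          rw [← Real.rpow_add hl0, ← Real.rpow_mul hl0.le]
          congr 1
          ring
  by_contra hc
  rw [not_le] at hc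
  exact absurd h2 (not_le.2 (Real.rpow_lt_rpow (Real.rpow_nonneg hl0.le _) hc (by linarith)))

/-- the condition of `prop` in terms of logarithms -/
lemma cond {T j k : ℝ} (hT : 1000 ≤ T) (hj : 2 ≤ j)
    (h : Real.log 1000 + 2 * Real.log j + 2 * Real.log (Real.log T) + Real.log T ≤
      j * k * Real.log (Real.log T)) :
    1000 * j ^ 2 * Real.log T ^ 2 * T ≤ Real.log T ^ (j * k) := by
  have hl := log_ge hT
  have hl0 : 0 < Real.log T := by linarith
  have hj0 : 0 < j := by linarith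
  have hT0 : 0 < T := by linarith
  rw [Real.rpow_def_of_pos hl0, ← Real.log_le_iff_le_exp (by positivity),
    Real.log_mul (by positivity) (by positivity), Real.log_mul (by positivity) (by positivity),
    Real.log_mul (by positivity) (by positivity), Real.log_pow, Real.log_pow]
  push_cast
  linarith

lemma log_1000 : Real.log 1000 ≤ 7 := by
  rw [Real.log_le_iff_le_exp (by norm_num)]
  have e : Real.exp 7 = Real.exp 1 ^ 7 := by rw [← Real.exp_nat_mul]; norm_num
  rw [e]
  have h := Real.exp_one_gt_d9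
  calc (1000:ℝ) ≤ 2.7182818283 ^ 7 := by norm_num
    _ ≤ Real.exp 1 ^ 7 := by gcongr

lemma big {T : ℝ} (hT : 5 * 10 ^ 12 < T) :
    (29:ℝ) ≤ Real.log T ∧ (3:ℝ) ≤ Real.log (Real.log T) ∧
      Real.log (Real.log T) ≤ Real.log T / 20 + 2 := by
  have h1 : (29:ℝ) ≤ Real.log T := by
    rw [Real.le_log_iff_exp_le (by linarith)]
    have e : Real.exp 29 = Real.exp 1 ^ 29 := by rw [← Real.exp_nat_mul]; norm_num
    rw [e]
    have h := Real.exp_one_lt_d9
    calc Real.exp 1 ^ 29 ≤ (2.7182818286:ℝ) ^ 29 := by gcongr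
      _ ≤ 5 * 10 ^ 12 := by norm_num
      _ ≤ T := hT.le
  refine ⟨h1, ?_, ?_⟩
  · rw [Real.le_log_iff_exp_le (by linarith)]
    have e : Real.exp 3 = Real.exp 1 ^ 3 := by rw [← Real.exp_nat_mul]; norm_num
    rw [e]
    have h := Real.exp_one_lt_d9
    calc Real.exp 1 ^ 3 ≤ (2.7182818286:ℝ) ^ 3 := by gcongr
      _ ≤ 29 := by norm_num
      _ ≤ _ := h1
  · have h2 := Real.log_le_sub_one_of_pos (x := Real.log T / 20) (by linarith)
    rw [Real.log_div (by linarith) (by norm_num)] at h2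
    have h3 : Real.log 20 ≤ 3 := by
      rw [Real.log_le_iff_le_exp (by norm_num)]
      have e : Real.exp 3 = Real.exp 1 ^ 3 := by rw [← Real.exp_nat_mul]; norm_num
      rw [e]
      have h := Real.exp_one_gt_d9
      calc (20:ℝ) ≤ 2.7182818283 ^ 3 := by norm_num
        _ ≤ Real.exp 1 ^ 3 := by gcongr
    linarith

/-- from `j²` to the square root -/
lemma sq_of_sqrt {a x j : ℝ} (ha : 0 ≤ a) (hx : 0 < x) (h : Real.sqrt (a / x) ≤ j) :
    a ≤ j ^ 2 * x := by
  have h1 : a / x ≤ j ^ 2 := by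
    have h2 : 0 ≤ Real.sqrt (a / x) := Real.sqrt_nonneg _
    calc a / x = Real.sqrt (a / x) ^ 2 := (Real.sq_sqrt (by positivity)).symm
      _ ≤ j ^ 2 := by gcongr
  rwa [div_le_iff₀ hx] at h1

/-- all orders above `sqrt (2 log T / log log T)`, explicit -/
theorem up_two {T j k : ℝ} (hT : 1000 ≤ T) (hj : 2 ≤ j)
    (h : Real.sqrt (2 * Real.log T / Real.log (Real.log T)) ≤ j) (hg : Good j T) (hjk : j ≤ k) :
    Good k T := by
  rcases le_or_gt T (5 * 10 ^ 12) with h1 | h1
  · exact small_range k T (by linarith) hT h1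
  obtain ⟨b1, b2, b3⟩ := big h1
  have h2 := sq_of_sqrt (by linarith) (by linarith) h
  refine prop hT hj hjk (cond hT hj ?_) hg
  have hj0 : 0 < j := by linarith
  have h3 : 2 * Real.log j ≤ j ^ 2 / 8 + 2 := by
    have h4 := Real.log_le_sub_one_of_pos (x := j ^ 2 / 8) (by positivity)
    rw [Real.log_div (by positivity) (by norm_num), Real.log_pow] at h4
    have h5 : Real.log 8 ≤ 3 := by
      have := Real.log_le_sub_one_of_pos (x := (8:ℝ) / 8) (by norm_num)
      have e8 : Real.log 8 = 3 * Real.log 2 := by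
        have : (8:ℝ) = 2 ^ 3 := by norm_num
        rw [this, Real.log_pow]
        norm_num
      rw [e8]
      linarith [Real.log_two_lt_d9]
    push_cast at h4
    linarith
  have h6 : j ^ 2 * 3 ≤ j ^ 2 * Real.log (Real.log T) := by gcongr
  have h7 : j ^ 2 * Real.log (Real.log T) ≤ j * k * Real.log (Real.log T) := by
    have : j ^ 2 ≤ j * k := by nlinarith
    exact mul_le_mul_of_nonneg_right this (by linarith)
  have h8 := log_1000
  nlinarith

/-- all orders above `sqrt ((1 + ε) log T / log log T)` -/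
theorem up_eps {ε : ℝ} (hε : 0 < ε) : ∃ T₀ : ℝ, ∀ T j k : ℝ, T₀ ≤ T →
    Real.sqrt ((1 + ε) * Real.log T / Real.log (Real.log T)) ≤ j → Good j T → j ≤ k →
    Good k T := by
  have hll : Tendsto (fun T : ℝ => Real.log (Real.log T)) atTop atTop :=
    Real.tendsto_log_atTop.comp Real.tendsto_log_atTop
  have ev1 : ∀ᶠ T : ℝ in atTop, 2 * (1 + ε) / ε ≤ Real.log (Real.log T) :=
    hll.eventually_ge_atTop _
  have ho : (fun T : ℝ => Real.log (Real.log T)) =o[atTop] (fun T : ℝ => Real.log T) :=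
    Real.isLittleO_log_id_atTop.comp_tendsto Real.tendsto_log_atTop
  have ev2 : ∀ᶠ T : ℝ in atTop, ‖Real.log (Real.log T)‖ ≤ min (ε / 8) (1 / 4) * ‖Real.log T‖ :=
    ho.bound (by positivity)
  have ev3 : ∀ᶠ T : ℝ in atTop, 28 / ε ≤ Real.log T := Real.tendsto_log_atTop.eventually_ge_atTop _
  obtain ⟨T₀, hT₀⟩ := eventually_atTop.1 (ev1.and (ev2.and (ev3.and (eventually_ge_atTop 1000))))
  refine ⟨T₀, fun T j k hT hj hg hjk => ?_⟩
  obtain ⟨e1, e2, e3, e4⟩ := hT₀ T hT
  have hl := log_ge e4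
  have hlg := llog_ge e4
  set L := Real.log T with hL
  set l := Real.log L with hl'
  rw [Real.norm_of_nonneg (by linarith), Real.norm_of_nonneg (by linarith)] at e2
  have hL0 : 0 < L := by linarith
  have hl0 : 0 < l := by linarith
  have h2 := sq_of_sqrt (by positivity) hl0 hj
  have e2a : l ≤ ε / 8 * L := e2.trans (mul_le_mul_of_nonneg_right (min_le_left _ _) hL0.le)
  have e2b : l ≤ 1 / 4 * L := e2.trans (mul_le_mul_of_nonneg_right (min_le_right _ _) hL0.le)
  have hj0 : 0 ≤ j := le_trans (Real.sqrt_nonneg _) hj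
  have hj2 : 2 ≤ j := by
    by_contra hc
    rw [not_le] at hc
    have h3 : j ^ 2 < 4 := by nlinarith
    have h4 : j ^ 2 * l < 4 * l := by gcongr
    nlinarith
  refine prop e4 hj2 hjk (cond e4 hj2 ?_) hg
  have h8 := log_1000
  have h3 : 2 * Real.log j ≤ j ^ 2 := by
    have h4 := Real.log_le_sub_one_of_pos (x := j ^ 2) (by positivity)
    rw [Real.log_pow] at h4
    push_cast at h4
    linarith
  have h7 : j ^ 2 * l ≤ j * k * l := by
    have : j ^ 2 ≤ j * k := by nlinarith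
    exact mul_le_mul_of_nonneg_right this (by linarith)
  refine le_trans ?_ h7
  -- `η = ε / (2 (1 + ε))`
  have h9 : j ^ 2 ≤ ε / (2 * (1 + ε)) * (j ^ 2 * l) := by
    have : 1 ≤ ε / (2 * (1 + ε)) * l := by
      rw [div_le_iff₀ hε] at e1
      rw [div_mul_eq_mul_div, le_div_iff₀ (by positivity)]
      linarith
    calc j ^ 2 = j ^ 2 * 1 := (mul_one _).symm
      _ ≤ j ^ 2 * (ε / (2 * (1 + ε)) * l) := by gcongr
      _ = _ := by ring
  have h10 : (1 + ε / 2) * L ≤ (1 - ε / (2 * (1 + ε))) * (j ^ 2 * l) := by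
    have hη : 1 - ε / (2 * (1 + ε)) = (1 + ε / 2) / (1 + ε) := by
      field_simp
      ring
    rw [hη]
    calc (1 + ε / 2) * L = (1 + ε / 2) / (1 + ε) * ((1 + ε) * L) := by field_simp
      _ ≤ _ := by gcongr
  have h11 : 7 ≤ ε / 4 * L := by
    rw [div_le_iff₀ hε] at e3
    linarith
  linarith

end Rd

end Pool.Agent.V5helper33.ZM
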