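import Mathlib

set_option autoImplicit false

/-!
# A local Bernstein inequality and the mean value of a power near a maximum (helper33)

`F` analytic and bounded by `B` for `|Im w| ≤ β`, bounded by `V` on the real line: then
`|F'| ≤ e Λ V` on the real line, `Λ = (1 + log (B / V)) / β` (Hadamard's three lines theorem).
-/

namespace Pool.Agent.V5helper33.ZM

open Complex Set Filter Topology MeasureTheory
open Complex.HadamardThreeLines

/-- the three lines theorem above the real line -/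
lemma upper {F : ℂ → ℂ} {β V B : ℝ} (hβ : 0 < β)
    (hd : ∀ w : ℂ, |w.im| ≤ β → DifferentiableAt ℂ F w)
    (hB : ∀ w : ℂ, |w.im| ≤ β → ‖F w‖ ≤ B) (hR : ∀ u : ℝ, ‖F u‖ ≤ V) {w : ℂ}
    (h0 : 0 ≤ w.im) (h1 : w.im ≤ β) :
    ‖F w‖ ≤ V ^ (1 - w.im / β) * B ^ (w.im / β) := by
  set G : ℂ → ℂ := fun z => F (I * (β : ℂ) * z) with hG
  have him : ∀ z : ℂ, (I * (β : ℂ) * z).im = β * z.re := by
    intro z
    simp [mul_assoc]
  have hmem : ∀ z : ℂ, 0 ≤ z.re → z.re ≤ 1 → |(I * (β : ℂ) * z).im| ≤ β := by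
    intro z hz0 hz1
    rw [him, abs_of_nonneg (by positivity)]
    nlinarith
  have hdG : ∀ z : ℂ, 0 ≤ z.re → z.re ≤ 1 → DifferentiableAt ℂ G z := by
    intro z hz0 hz1
    exact (hd _ (hmem z hz0 hz1)).comp z (by fun_prop)
  have hcl : closure (verticalStrip 0 1) ⊆ {z : ℂ | 0 ≤ z.re ∧ z.re ≤ 1} := by
    apply closure_minimal
    · intro z hz
      exact ⟨le_of_lt hz.1, le_of_lt hz.2⟩
    · exact (isClosed_le continuous_const continuous_re).inter
        (isClosed_le continuous_re continuous_const)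
  have hbet : (β : ℂ) ≠ 0 := by exact_mod_cast hβ.ne'
  set z : ℂ := -I * w / β with hz
  have ez : I * (β : ℂ) * z = w := by
    rw [hz]
    field_simp
    rw [I_sq]
    ring
  have hre : z.re = w.im / β := by
    have := him z
    rw [ez] at this
    rw [this]
    field_simp
  have hz0 : 0 ≤ z.re := by rw [hre]; positivity
  have hz1 : z.re ≤ 1 := by rw [hre, div_le_one hβ]; exact h1
  have key := norm_le_interp_of_mem_verticalClosedStrip₀₁' G (z := z) (a := V) (b := B)
    (by exact ⟨hz0, hz1⟩)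
    (DifferentiableOn.diffContOnCl (fun y hy => (hdG y (hcl hy).1 (hcl hy).2).differentiableWithinAt))
    (by
      refine ⟨B, ?_⟩
      rintro _ ⟨y, hy, rfl⟩
      exact hB _ (hmem y hy.1 hy.2))
    (by
      intro y hy
      have hy0 : y.re = 0 := hy
      have e : I * (β : ℂ) * y = ((-(β * y.im) : ℝ) : ℂ) := by
        apply Complex.ext
        · simp [mul_assoc]
        · rw [him, hy0]; simp
      show ‖F (I * (β : ℂ) * y)‖ ≤ V
      rw [e]
      exact hR _)
    (by
      intro y hy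
      have hy1 : y.re = 1 := hy
      exact hB _ (hmem y (by rw [hy1]; norm_num) (by rw [hy1])))
  rw [hre] at key
  have e2 : G z = F w := by
    show F (I * (β : ℂ) * z) = F w
    rw [ez]
  rwa [e2] at key

/-- the growth off the real line -/
lemma off {F : ℂ → ℂ} {β V B Λ : ℝ} (hβ : 0 < β) (hV : 0 < V) (hVB : V ≤ B)
    (hd : ∀ w : ℂ, |w.im| ≤ β → DifferentiableAt ℂ F w)
    (hB : ∀ w : ℂ, |w.im| ≤ β → ‖F w‖ ≤ B) (hR : ∀ u : ℝ, ‖F u‖ ≤ V)
    (hΛ : Real.log (B / V) / β ≤ Λ) {w : ℂ} (h1 : |w.im| ≤ β) :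
    ‖F w‖ ≤ V * Real.exp (|w.im| * Λ) := by
  have hB0 : 0 < B := hV.trans_le hVB
  have key : ‖F w‖ ≤ V ^ (1 - |w.im| / β) * B ^ (|w.im| / β) := by
    rcases le_total 0 w.im with h | h
    · have := upper hβ hd hB hR h (by rwa [abs_of_nonneg h] at h1)
      rwa [abs_of_nonneg h]
    · have hd' : ∀ w : ℂ, |w.im| ≤ β → DifferentiableAt ℂ (fun z => F (-z)) w := by
        intro z hz
        exact (hd (-z) (by rwa [neg_im, abs_neg])).comp z (by fun_prop)
      have := upper (F := fun z => F (-z)) (w := -w) hβ hd'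
        (fun z hz => hB (-z) (by rwa [neg_im, abs_neg]))
        (fun u => by have := hR (-u); push_cast at this; exact this)
        (by rw [neg_im]; linarith) (by rw [neg_im]; rwa [abs_of_nonpos h] at h1)
      simp only [neg_neg, neg_im] at this
      rwa [abs_of_nonpos h]
  have e : V ^ (1 - |w.im| / β) * B ^ (|w.im| / β) =
      V * Real.exp (|w.im| * (Real.log (B / V) / β)) := by
    rw [Real.rpow_sub hV, Real.rpow_one, Real.rpow_def_of_pos hV, Real.rpow_def_of_pos hB0,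
      Real.log_div hB0.ne' hV.ne', div_mul_eq_mul_div, mul_div_assoc, ← Real.exp_sub]
    congr 2
    ring
  rw [e] at key
  refine key.trans ?_
  gcongr

/-- the local Bernstein inequality -/
lemma deriv_le {F : ℂ → ℂ} {β V B Λ : ℝ} (hβ : 0 < β) (hV : 0 < V) (hVB : V ≤ B)
    (hd : ∀ w : ℂ, |w.im| ≤ β → DifferentiableAt ℂ F w)
    (hB : ∀ w : ℂ, |w.im| ≤ β → ‖F w‖ ≤ B) (hR : ∀ u : ℝ, ‖F u‖ ≤ V)
    (hΛ : (1 + Real.log (B / V)) / β ≤ Λ) (u : ℝ) : ‖deriv F u‖ ≤ Real.exp 1 * Λ * V := by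
  have hlog : 0 ≤ Real.log (B / V) := Real.log_nonneg (by rwa [le_div_iff₀ hV, one_mul])
  have hΛ1 : 1 / β ≤ Λ := le_trans (by gcongr; linarith) hΛ
  have hΛ0 : 0 < Λ := lt_of_lt_of_le (by positivity) hΛ1
  have hΛ2 : Real.log (B / V) / β ≤ Λ := le_trans (by gcongr; linarith) hΛ
  have hρ : 1 / Λ ≤ β := by
    rw [div_le_iff₀ hΛ0]
    rwa [div_le_iff₀' hβ] at hΛ1
  have him : ∀ z ∈ Metric.closedBall (u : ℂ) (1 / Λ), |z.im| ≤ 1 / Λ := by
    intro z hz
    rw [Metric.mem_closedBall, dist_eq_norm] at hz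
    have := abs_im_le_norm (z - u)
    rw [sub_im, ofReal_im, sub_zero] at this
    exact this.trans hz
  have key := norm_deriv_le_of_forall_mem_sphere_norm_le (c := (u : ℂ)) (R := 1 / Λ)
    (C := Real.exp 1 * V) (f := F) (by positivity) (by
      refine DifferentiableOn.diffContOnCl fun z hz => ?_
      have hz' := Metric.closure_ball_subset_closedBall hz
      exact (hd z ((him z hz').trans hρ)).differentiableWithinAt) (by
      intro z hz
      have hz1 := him z (Metric.sphere_subset_closedBall hz)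
      refine (off hβ hV hVB hd hB hR hΛ2 (hz1.trans hρ)).trans ?_
      rw [mul_comm]
      gcongr
      calc |z.im| * Λ ≤ 1 / Λ * Λ := by gcongr
        _ = 1 := by field_simp)
  refine key.trans (le_of_eq ?_)
  field_simp

/-- a lower bound near the maximum -/
lemma lower {F : ℂ → ℂ} {β V B Λ : ℝ} (hβ : 0 < β) (hV : 0 < V) (hVB : V ≤ B)
    (hd : ∀ w : ℂ, |w.im| ≤ β → DifferentiableAt ℂ F w)
    (hB : ∀ w : ℂ, |w.im| ≤ β → ‖F w‖ ≤ B) (hR : ∀ u : ℝ, ‖F u‖ ≤ V) (h0 : ‖F 0‖ = V)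
    (hΛ : (1 + Real.log (B / V)) / β ≤ Λ) {w : ℝ} (hw : 0 ≤ w) :
    V * (1 - w * (Real.exp 1 * Λ)) ≤ ‖F w‖ := by
  have hder : ∀ x : ℝ, HasDerivAt (fun x : ℝ => F x) (deriv F x) x := by
    intro x
    exact (hd x (by simp [hβ.le])).hasDerivAt.comp_ofReal
  have key := Convex.norm_image_sub_le_of_norm_hasDerivWithin_le (s := univ)
    (f := fun x : ℝ => F x) (f' := fun x : ℝ => deriv F x) (C := Real.exp 1 * Λ * V)
    (x := 0) (y := w) (fun x _ => (hder x).hasDerivWithinAt)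
    (fun x _ => deriv_le hβ hV hVB hd hB hR hΛ x) convex_univ (mem_univ _) (mem_univ _)
  rw [sub_zero, Real.norm_of_nonneg hw] at key
  have h2 : ‖F 0‖ ≤ ‖F w - F 0‖ + ‖F w‖ := by
    have := norm_sub_norm_le (F 0) (F w)
    rw [norm_sub_rev] at this
    linarith
  simp only [ofReal_zero] at key
  rw [h0] at h2
  nlinarith

/-- a beta integral -/
lemma beta_int {h p : ℝ} (hh : 0 < h) (hp : 1 ≤ p) :
    ∫ w in (0:ℝ)..h, w * (1 - w / h) ^ p = h ^ 2 / ((p + 1) * (p + 2)) := by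
  have hp1 : p + 1 ≠ 0 := by linarith
  have hp2 : p + 2 ≠ 0 := by linarith
  set Φ : ℝ → ℝ := fun w => -(h / (p + 1)) * (w * (1 - w / h) ^ (p + 1)) -
    h ^ 2 / ((p + 1) * (p + 2)) * (1 - w / h) ^ (p + 2) with hΦ
  have hlin : ∀ w : ℝ, HasDerivAt (fun w : ℝ => 1 - w / h) (-(1 / h)) w := by
    intro w
    have := ((hasDerivAt_id w).div_const h).const_sub 1
    simpa using this
  have hder : ∀ w ∈ uIcc 0 h, HasDerivAt Φ (w * (1 - w / h) ^ p) w := by
    intro w _
    have h1 : HasDerivAt (fun w : ℝ => (1 - w / h) ^ (p + 1))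
        (-(1 / h) * (p + 1) * (1 - w / h) ^ (p + 1 - 1)) w :=
      (hlin w).rpow_const (Or.inr (by linarith))
    have h2 : HasDerivAt (fun w : ℝ => (1 - w / h) ^ (p + 2))
        (-(1 / h) * (p + 2) * (1 - w / h) ^ (p + 2 - 1)) w :=
      (hlin w).rpow_const (Or.inr (by linarith))
    have h3 := (((hasDerivAt_id w).mul h1).const_mul (-(h / (p + 1)))).sub
      (h2.const_mul (h ^ 2 / ((p + 1) * (p + 2))))
    refine h3.congr_deriv ?_
    have e1 : p + 1 - 1 = p := by ring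
    have e2 : p + 2 - 1 = p + 1 := by ring
    rw [e1, e2]
    simp only [id]
    field_simp
    ring
  have hcont : Continuous fun w : ℝ => w * (1 - w / h) ^ p := by
    refine continuous_id.mul (Continuous.rpow_const (by fun_prop) fun x => Or.inr (by linarith))
  rw [intervalIntegral.integral_eq_sub_of_hasDerivAt hder (hcont.intervalIntegrable _ _)]
  simp only [hΦ]
  rw [div_self hh.ne']
  have z1 : (1 - 1 : ℝ) ^ (p + 1) = 0 := by rw [sub_self]; exact Real.zero_rpow hp1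
  have z2 : (1 - 1 : ℝ) ^ (p + 2) = 0 := by rw [sub_self]; exact Real.zero_rpow hp2
  rw [z1, z2]
  simp

end Pool.Agent.V5helper33.ZM
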