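import Pool.Agent.V5helper33.ZM.Zt

set_option autoImplicit false

/-!
# The maximum of the zeta function on the critical line and its moments (helper33)
-/

namespace Pool.Agent.V5helper33.ZM

open Complex Set Filter Topology MeasureTheory

/-- `|ζ(1/2 + it)|` -/
noncomputable def zz (t : ℝ) : ℝ := ‖riemannZeta (1 / 2 + t * I)‖

lemma zz_cont : Continuous zz := by
  unfold zz
  refine Continuous.norm (continuous_iff_continuousAt.2 fun t => ?_)
  have h : (1 / 2 + (t : ℂ) * I) ≠ 1 := by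
    intro h
    have := congrArg Complex.re h
    simp at this
  exact ContinuousAt.comp (f := fun t : ℝ => (1 / 2 + (t : ℂ) * I)) (g := riemannZeta)
    (differentiableAt_riemannZeta h).continuousAt (by fun_prop)

lemma zz_nonneg (t : ℝ) : 0 ≤ zz t := norm_nonneg _

/-- the function `ζ(1/2 + i (t0 - σ (1 - cos w) / 16))` -/
noncomputable def FF (t0 σ : ℝ) (w : ℂ) : ℂ :=
  riemannZeta (1 / 2 + ((t0 : ℂ) - σ * (1 / 16) * (1 - Complex.cos w)) * I)

lemma FF_real (t0 σ u : ℝ) : ‖FF t0 σ u‖ = zz (t0 - σ * (1 / 16) * (1 - Real.cos u)) := by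
  unfold FF zz
  push_cast
  rfl

lemma arg_bd {t0 σ : ℝ} (hσ : σ = 1 ∨ σ = -1) {w : ℂ} (hw : |w.im| ≤ 2) :
    ‖(σ : ℂ) * (1 / 16) * Complex.cos w * I‖ ≤ 1 / 4 := by
  have h1 := norm_cos_le hw
  have h2 : ‖(σ : ℂ)‖ = 1 := by
    rcases hσ with h | h <;> rw [h] <;> simp
  rw [norm_mul, norm_mul, norm_mul, h2, norm_I]
  have e : ‖(1 / 16 : ℂ)‖ = 1 / 16 := by norm_num
  rw [e]
  linarith

lemma FF_bd {T t0 σ : ℝ} (hT : 1000 ≤ T) (h0 : 0 ≤ t0) (hT0 : t0 ≤ T) (hσ : σ = 1 ∨ σ = -1)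
    {w : ℂ} (hw : |w.im| ≤ 2) : DifferentiableAt ℂ (FF t0 σ) w ∧ ‖FF t0 σ w‖ ≤ 5 * T := by
  set s : ℂ := 1 / 2 + ((t0 : ℂ) - σ * (1 / 16) * (1 - Complex.cos w)) * I with hs
  have hd := arg_bd (t0 := t0) hσ hw
  have es : s = ((1 / 2 : ℝ) : ℂ) + ((t0 - σ * (1 / 16) : ℝ) : ℂ) * I +
      (σ : ℂ) * (1 / 16) * Complex.cos w * I := by
    rw [hs]
    push_cast
    ring
  have hre : s.re = 1 / 2 + ((σ : ℂ) * (1 / 16) * Complex.cos w * I).re := by
    rw [es, add_re, add_re, ofReal_re, re_ofReal_mul, I_re]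
    ring
  have habs := abs_le.1 ((abs_re_le_norm _).trans hd)
  obtain ⟨hs1, hs2⟩ := zeta_near (s := s) (by rw [hre]; linarith [habs.1])
    (by rw [hre]; linarith [habs.2])
  have hn : ‖s‖ ≤ T + 1 := by
    rw [es]
    refine (norm_add_le _ _).trans ?_
    have h3 : ‖((1 / 2 : ℝ) : ℂ) + ((t0 - σ * (1 / 16) : ℝ) : ℂ) * I‖ ≤ 1 / 2 + (t0 + 1 / 16) := by
      refine (norm_add_le _ _).trans ?_
      rw [norm_mul, norm_I, mul_one, norm_real, norm_real, Real.norm_eq_abs, Real.norm_eq_abs]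
      have h4 : |t0 - σ * (1 / 16)| ≤ t0 + 1 / 16 := by
        rw [abs_le]
        rcases hσ with h | h <;> rw [h] <;> constructor <;> linarith
      have h5 : |(1 / 2 : ℝ)| = 1 / 2 := abs_of_pos (by norm_num)
      rw [h5]
      gcongr
    linarith
  constructor
  · have hf : DifferentiableAt ℂ (fun w : ℂ =>
        1 / 2 + ((t0 : ℂ) - σ * (1 / 16) * (1 - Complex.cos w)) * I) w := by fun_prop
    exact DifferentiableAt.comp w (differentiableAt_riemannZeta hs1) hf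
  · show ‖riemannZeta s‖ ≤ 5 * T
    linarith

lemma log_ge {T : ℝ} (hT : 1000 ≤ T) : (69:ℝ) / 10 ≤ Real.log T := by
  have h1 : Real.log 1000 ≤ Real.log T := Real.log_le_log (by norm_num) hT
  have h2 : (69:ℝ) / 10 ≤ Real.log 1000 := by
    rw [Real.le_log_iff_exp_le (by norm_num)]
    have h3 := Real.exp_one_lt_d9
    have e : Real.exp (69 / 10) = (Real.exp 1 ^ 69) ^ (1 / 10 : ℝ) := by
      rw [← Real.exp_nat_mul, ← Real.exp_mul]
      norm_num
    rw [e]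
    have h4 : Real.exp 1 ^ 69 ≤ (1000:ℝ) ^ (10:ℝ) := by
      have h5 : Real.exp 1 ^ 69 ≤ (2.7182818286:ℝ) ^ 69 := by gcongr
      refine h5.trans ?_
      norm_num
    calc (Real.exp 1 ^ 69) ^ (1 / 10 : ℝ) ≤ ((1000:ℝ) ^ (10:ℝ)) ^ (1 / 10 : ℝ) := by gcongr
      _ = 1000 := by
        rw [← Real.rpow_mul (by norm_num)]
        norm_num
  exact h2.trans h1

/-- the maximum and the moments -/
theorem max_le {T t0 p : ℝ} (hT : 1000 ≤ T) (ht : t0 ∈ Icc (0:ℝ) T)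
    (hmax : ∀ t ∈ Icc (0:ℝ) T, zz t ≤ zz t0) (h1 : 1 ≤ zz t0) (hp : 4 ≤ p) :
    zz t0 ^ p ≤ 250 * p ^ 2 * Real.log T ^ 2 * ∫ t in (0:ℝ)..T, zz t ^ p := by
  set L := Real.log T with hL
  have hL0 : 69 / 10 ≤ L := log_ge hT
  set V := zz t0 with hV
  have hV0 : 0 < V := by linarith
  obtain ⟨σ, hσ, hσ2⟩ : ∃ σ : ℝ, (σ = 1 ∨ σ = -1) ∧ ∀ x : ℝ, 0 ≤ x → x ≤ 2 →
      t0 - σ * (1 / 16) * x ∈ Icc (0:ℝ) T := by
    rcases le_total (1 / 8) t0 with h | h
    · refine ⟨1, Or.inl rfl, fun x hx0 hx2 => ⟨?_, ?_⟩⟩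
      · linarith
      · linarith [ht.2]
    · refine ⟨-1, Or.inr rfl, fun x hx0 hx2 => ⟨?_, ?_⟩⟩
      · linarith [ht.1]
      · linarith
  have hR : ∀ u : ℝ, ‖FF t0 σ u‖ ≤ V := by
    intro u
    rw [FF_real]
    exact hmax _ (hσ2 _ (by linarith [Real.cos_le_one u]) (by linarith [Real.neg_one_le_cos u]))
  have hd : ∀ w : ℂ, |w.im| ≤ 2 → DifferentiableAt ℂ (FF t0 σ) w :=
    fun w hw => (FF_bd hT ht.1 ht.2 hσ hw).1
  have hB : ∀ w : ℂ, |w.im| ≤ 2 → ‖FF t0 σ w‖ ≤ 5 * T :=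
    fun w hw => (FF_bd hT ht.1 ht.2 hσ hw).2
  have hF0 : ‖FF t0 σ 0‖ = V := by
    have := FF_real t0 σ 0
    rw [ofReal_zero] at this
    rw [this]
    simp [hV]
  have hVB : V ≤ 5 * T := by
    rw [← hF0]
    exact hB 0 (by simp)
  set Λ := (L + 3) / 2 with hΛ
  have hΛ0 : 0 < Λ := by rw [hΛ]; linarith
  have hlog : (1 + Real.log (5 * T / V)) / 2 ≤ Λ := by
    have hT0 : 0 < T := by linarith
    have h2 : Real.log (5 * T / V) ≤ Real.log (5 * T) := by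
      apply Real.log_le_log (by positivity)
      exact div_le_self (by positivity) h1
    have h3 : Real.log (5 * T) = Real.log 5 + L := Real.log_mul (by norm_num) hT0.ne'
    have h4 : Real.log 5 ≤ 2 := by
      rw [Real.log_le_iff_le_exp (by norm_num)]
      have e : Real.exp 2 = Real.exp 1 ^ 2 := by rw [← Real.exp_nat_mul]; norm_num
      rw [e]
      nlinarith [Real.exp_one_gt_d9]
    rw [hΛ]
    linarith
  set h := 1 / (Real.exp 1 * Λ) with hh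
  have he : 0 < Real.exp 1 := Real.exp_pos 1
  have hh0 : 0 < h := by positivity
  have hh2 : h ≤ Real.pi / 2 := by
    have h3 : 1 ≤ Real.exp 1 * Λ := by
      have := Real.exp_one_gt_d9
      nlinarith
    have h4 : h ≤ 1 := by
      rw [hh, div_le_one (by positivity)]
      exact h3
    linarith [Real.pi_gt_three]
  have hlow : ∀ w : ℝ, 0 ≤ w → w ≤ h →
      V * (1 - w / h) ≤ zz (t0 - σ * (1 / 16) * (1 - Real.cos w)) := by
    intro w hw0 _
    have := lower (by norm_num : (0:ℝ) < 2) hV0 hVB hd hB hR hF0 hlog hw0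
    rw [FF_real] at this
    have e : w / h = w * (Real.exp 1 * Λ) := by
      rw [hh]
      field_simp
    rw [e]
    exact this
  have hcos0 : 0 ≤ 1 - Real.cos h := by linarith [Real.cos_le_one h]
  have hcos2 : 1 - Real.cos h ≤ 2 := by linarith [Real.neg_one_le_cos h]
  have key := mean_lower zz_cont zz_nonneg (T := T) (t0 := t0) (r := 1 / 16) (σ := σ) (V := V)
    (h := h) (p := p) hσ (by norm_num) hh0 hh2 (by linarith) hV0.le hlow ht.1 ht.2
    (hσ2 _ hcos0 hcos2).1 (hσ2 _ hcos0 hcos2).2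
  set J := ∫ t in (0:ℝ)..T, zz t ^ p with hJ
  set X := 1 / 16 * (2 / Real.pi) * (h ^ 2 / ((p + 1) * (p + 2))) with hX
  have hVp : 0 ≤ V ^ p := Real.rpow_nonneg hV0.le _
  have hX1 : 1 ≤ X * (250 * p ^ 2 * L ^ 2) := by
    have hpi := Real.pi_pos
    have hpi2 := Real.pi_lt_d2
    have he2 : Real.exp 1 ^ 2 ≤ 7.4 := by
      nlinarith [Real.exp_one_lt_d9, Real.exp_pos 1]
    have hΛ2 : Λ ^ 2 ≤ 0.515 * L ^ 2 := by
      rw [hΛ]
      nlinarith
    have hp2 : (p + 1) * (p + 2) ≤ 1.875 * p ^ 2 := by nlinarith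
    have e : X * (250 * p ^ 2 * L ^ 2) =
        (250 * p ^ 2 * L ^ 2) / (8 * Real.pi * (Real.exp 1 ^ 2 * Λ ^ 2) * ((p + 1) * (p + 2))) := by
      rw [hX, hh]
      field_simp
      ring
    rw [e, one_le_div (by positivity)]
    calc 8 * Real.pi * (Real.exp 1 ^ 2 * Λ ^ 2) * ((p + 1) * (p + 2))
        ≤ 8 * 3.15 * (7.4 * (0.515 * L ^ 2)) * (1.875 * p ^ 2) := by gcongr
      _ = (8 * 3.15 * 7.4 * 0.515 * 1.875) * (p ^ 2 * L ^ 2) := by ring
      _ ≤ 250 * (p ^ 2 * L ^ 2) := by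
          apply mul_le_mul_of_nonneg_right _ (by positivity)
          norm_num
      _ = 250 * p ^ 2 * L ^ 2 := by ring
  calc V ^ p = V ^ p * 1 := (mul_one _).symm
    _ ≤ V ^ p * (X * (250 * p ^ 2 * L ^ 2)) := by gcongr
    _ = 250 * p ^ 2 * L ^ 2 * (V ^ p * X) := by ring
    _ ≤ 250 * p ^ 2 * L ^ 2 * J := by gcongr

/-- the maximum and the moments, for all `t` -/
theorem all_le {T t p : ℝ} (hT : 1000 ≤ T) (ht : t ∈ Icc (0:ℝ) T) (hp : 4 ≤ p) :
    zz t ^ p ≤ max 1 (250 * p ^ 2 * Real.log T ^ 2 * ∫ t in (0:ℝ)..T, zz t ^ p) := by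
  obtain ⟨t0, ht0, hmax⟩ := (isCompact_Icc (a := (0:ℝ)) (b := T)).exists_isMaxOn
    ⟨0, ⟨le_rfl, by linarith⟩⟩ zz_cont.continuousOn
  have hm : ∀ t ∈ Icc (0:ℝ) T, zz t ≤ zz t0 := fun t ht => hmax ht
  have h2 : zz t ^ p ≤ zz t0 ^ p := Real.rpow_le_rpow (zz_nonneg _) (hm t ht) (by linarith)
  rcases le_total 1 (zz t0) with h | h
  · exact (h2.trans (max_le hT ht0 hm h hp)).trans (le_max_right _ _)
  · exact (h2.trans (Real.rpow_le_one (zz_nonneg _) h (by linarith))).trans (le_max_left _ _)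

end Pool.Agent.V5helper33.ZM
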