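import Pool.Agent.V5helper33.ZM.Rd

set_option autoImplicit false

/-!
# Ranges of orders and the size of the maximum (helper33)
-/

namespace Pool.Agent.V5helper33.ZM

open Complex Set Filter Topology MeasureTheory
open Pool.Agent.Results.MP_3d0d30_nt.ReductionsAndLargeValues

namespace Rd

/-- `log log T ≤ c log T` for large `T` -/
lemma ev_ll {c : ℝ} (hc : 0 < c) :
    ∀ᶠ T : ℝ in atTop, Real.log (Real.log T) ≤ c * Real.log T := by
  have ho : (fun T : ℝ => Real.log (Real.log T)) =o[atTop] (fun T : ℝ => Real.log T) :=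
    Real.isLittleO_log_id_atTop.comp_tendsto Real.tendsto_log_atTop
  filter_upwards [ho.bound hc, eventually_ge_atTop 1000] with T h1 h2
  rwa [Real.norm_of_nonneg (by linarith [llog_ge h2]),
    Real.norm_of_nonneg (by linarith [log_ge h2])] at h1

lemma ev_L (c : ℝ) : ∀ᶠ T : ℝ in atTop, c ≤ Real.log T :=
  Real.tendsto_log_atTop.eventually_ge_atTop _

lemma ev_l (c : ℝ) : ∀ᶠ T : ℝ in atTop, c ≤ Real.log (Real.log T) :=
  (Real.tendsto_log_atTop.comp Real.tendsto_log_atTop).eventually_ge_atTop _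

/-- the logarithm of the maximum from one good order -/
lemma log_max {T j t : ℝ} (hT : 1000 ≤ T) (hj : 2 ≤ j) (hg : Good j T)
    (ht : t ∈ Icc (0:ℝ) T) (x : ℝ)
    (hx : 7 + 2 * Real.log j + 2 * Real.log (Real.log T) + Real.log T +
      j ^ 2 * Real.log (Real.log T) ≤ 2 * j * x) : Z t ≤ Real.exp x := by
  have hl := log_ge hT
  have hl0 : 0 < Real.log T := by linarith
  have hj0 : 0 < j := by linarith
  have hT0 : 0 < T := by linarith
  have h1 := max_good hT hj hg ht
  have h2 : Z t ^ (2 * j) ≤ Real.exp x ^ (2 * j) := by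
    refine h1.trans ?_
    rw [← Real.exp_mul, mul_comm x, Real.rpow_def_of_pos hl0,
      ← Real.log_le_iff_le_exp (by positivity), Real.log_mul (by positivity) (by positivity),
      Real.log_mul (by positivity) (by positivity), Real.log_mul (by positivity) (by positivity),
      Real.log_mul (by positivity) (by positivity), Real.log_exp, Real.log_pow, Real.log_pow]
    have := log_1000
    push_cast
    linarith
  by_contra hc
  rw [not_le] at hc
  exact absurd h2 (not_le.2 (Real.rpow_lt_rpow (Real.exp_pos _).le hc (by linarith)))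

/-- from the maximum to the orders -/
lemma good_of_max {T x k : ℝ} (hT : 1000 ≤ T) (hW : ∀ t ∈ Icc (0:ℝ) T, Z t ≤ Real.exp x)
    (hk : 2 ≤ k) (hx : 2 * x ≤ (k + 2) * Real.log (Real.log T)) : Good k T := by
  have hl := log_ge hT
  have hll := llog_ge hT
  have hl0 : 0 < Real.log T := by linarith
  refine reflect (κ := (2 + k) / 2) hT (fun t ht => (hW t ht).trans ?_) (by norm_num)
    (good_two T hT) hk (by linarith)
  rw [Real.rpow_def_of_pos hl0]
  apply Real.exp_le_exp.2
  linarith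

/-- a bound for large `t` gives a bound for the maximum -/
lemma sup_of {f : ℝ → ℝ} {t₀ : ℝ} (h : ∀ t : ℝ, t₀ ≤ t → Z t ≤ Real.exp (f t))
    (hf : Tendsto f atTop atTop) (hmono : ∀ᶠ t : ℝ in atTop, ∀ T : ℝ, t ≤ T → f t ≤ f T) :
    ∀ᶠ T : ℝ in atTop, ∀ t ∈ Icc (0:ℝ) T, Z t ≤ Real.exp (f T) := by
  obtain ⟨t₁, ht₁⟩ := eventually_atTop.1 hmono
  obtain ⟨C, hC⟩ := (isCompact_Icc (a := (0:ℝ)) (b := max t₀ t₁)).exists_bound_of_continuousOn
    Z_cont.continuousOn
  have hlim : ∀ᶠ T : ℝ in atTop, C ≤ Real.exp (f T) :=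
    (Real.tendsto_exp_atTop.comp hf).eventually_ge_atTop C
  filter_upwards [hlim, eventually_ge_atTop (max t₀ t₁)] with T h1 h2 t ht
  rcases le_total t (max t₀ t₁) with h3 | h3
  · have h4 := hC t ⟨ht.1, h3⟩
    rw [Real.norm_of_nonneg (Z_nonneg t)] at h4
    exact h4.trans h1
  · refine (h t ((le_max_left _ _).trans h3)).trans (Real.exp_le_exp.2 ?_)
    exact ht₁ t ((le_max_right _ _).trans h3) T ht.2

/-- (A) ranges `k ≥ C K(T)` and the maximum -/
theorem ranges (K : ℝ → ℝ)
    (hK : ∀ᶠ T : ℝ in atTop, Real.sqrt (Real.log T / Real.log (Real.log T)) ≤ K T) :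
    (∃ C T₀ : ℝ, 0 < C ∧ ∀ T k : ℝ, T₀ ≤ T → C * K T ≤ k → Good k T) ↔
      ∃ C T₀ : ℝ, 0 < C ∧ ∀ T t : ℝ, T₀ ≤ T → t ∈ Icc (0:ℝ) T → Z t ≤ Real.log T ^ (C * K T) := by
  have ev : ∀ᶠ T : ℝ in atTop, 3 ≤ K T := by
    filter_upwards [hK, ev_ll (c := 1 / 9) (by norm_num), eventually_ge_atTop 1000] with T h1 h2 h3
    refine le_trans ?_ h1
    apply Real.le_sqrt_of_sq_le
    rw [le_div_iff₀ (by linarith [llog_ge h3])]
    linarith
  constructor
  · rintro ⟨C, T₀, hC, h⟩
    obtain ⟨T₁, hT₁⟩ := eventually_atTop.1 (ev.and (hK.and ((ev_l 3).and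
      ((eventually_ge_atTop 1000).and (eventually_ge_atTop T₀)))))
    refine ⟨3 / 2 * max C 1, T₁, by positivity, fun T t hT ht => ?_⟩
    obtain ⟨e1, e2, e3, e4, e5⟩ := hT₁ T hT
    have hl0 : 0 < Real.log T := by linarith [log_ge e4]
    set j := max C 1 * K T with hj
    have hK0 : 0 ≤ K T := by linarith
    have hjK : K T ≤ j := by
      rw [hj]
      exact le_mul_of_one_le_left hK0 (le_max_right _ _)
    have hjC : C * K T ≤ j := by
      rw [hj]
      exact mul_le_mul_of_nonneg_right (le_max_left _ _) hK0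
    have hj3 : 3 ≤ j := by linarith
    have hg := h T j e5 hjC
    have h2 := sq_of_sqrt hl0.le (by linarith) (e2.trans hjK)
    rw [Real.rpow_def_of_pos hl0]
    refine log_max e4 (by linarith) hg ht _ ?_
    have h3 : 2 * Real.log j ≤ j ^ 2 - 1 := by
      have h4 := Real.log_le_sub_one_of_pos (x := j ^ 2) (by positivity)
      rw [Real.log_pow] at h4
      push_cast at h4
      linarith
    have e : 2 * j * (Real.log (Real.log T) * (3 / 2 * max C 1 * K T)) =
        3 * (j ^ 2 * Real.log (Real.log T)) := by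
      rw [hj]
      ring
    rw [e]
    have h5 : (j ^ 2 - 2) * 3 ≤ (j ^ 2 - 2) * Real.log (Real.log T) :=
      mul_le_mul_of_nonneg_left e3 (by nlinarith)
    nlinarith
  · rintro ⟨C, T₀, hC, h⟩
    obtain ⟨T₁, hT₁⟩ := eventually_atTop.1 (ev.and
      ((eventually_ge_atTop 1000).and (eventually_ge_atTop T₀)))
    refine ⟨2 * C + 1, T₁, by positivity, fun T k hT hk => ?_⟩
    obtain ⟨e1, e4, e5⟩ := hT₁ T hT
    have hl0 : 0 < Real.log T := by linarith [log_ge e4]
    have hll := llog_ge e4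
    have hCK : 0 < C * K T := by positivity
    refine good_of_max (x := Real.log (Real.log T) * (C * K T)) e4 (fun t ht => ?_) (by linarith) ?_
    · have := h T t e5 ht
      rwa [Real.rpow_def_of_pos hl0] at this
    · nlinarith

/-- (B) Lindelöf exponents -/
theorem exponents {κ : ℝ} (hκ : 0 ≤ κ) :
    (∀ ε : ℝ, 0 < ε → ∃ T₀ : ℝ, ∀ T k : ℝ, T₀ ≤ T →
      (2 * κ + ε) * (Real.log T / Real.log (Real.log T)) ≤ k → Good k T) ↔
      ∀ ε : ℝ, 0 < ε → ∃ T₀ : ℝ, ∀ t : ℝ, T₀ ≤ t → Z t ≤ t ^ (κ + ε) := by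
  constructor
  · intro h ε hε
    obtain ⟨T₀, hT₀⟩ := h ε hε
    obtain ⟨T₁, hT₁⟩ := eventually_atTop.1 ((ev_ll (c := ε * ε / 8) (by positivity)).and
      ((ev_ll (c := 1 / 2) (by norm_num)).and ((ev_ll (c := ε / 2) (by positivity)).and
      ((ev_L (4 / ε)).and
      ((eventually_ge_atTop 1000).and (eventually_ge_atTop T₀))))))
    refine ⟨T₁, fun T hT => ?_⟩
    obtain ⟨e1, e2, e2', e3, e4, e5⟩ := hT₁ T hT
    have hl := log_ge e4
    have hl0 : 0 < Real.log T := by linarith
    have hll := llog_ge e4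
    set L := Real.log T with hL
    set l := Real.log L with hl'
    have hl1 : 0 < l := by linarith
    set j := (2 * κ + ε) * (L / l) with hj
    have hLl : 8 / ε ≤ ε * (L / l) := by
      rw [div_le_iff₀ hε, mul_comm ε, mul_assoc, ← mul_div_right_comm, le_div_iff₀ hl1]
      nlinarith
    have hεj : ε * (L / l) ≤ j := by
      rw [hj]
      have : 0 ≤ L / l := by positivity
      nlinarith
    have hj8 : 8 / ε ≤ j := hLl.trans hεj
    have hj2 : 2 ≤ j := by
      refine le_trans ?_ hεj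
      rw [← mul_div_assoc, le_div_iff₀ hl1]
      linarith
    have hT0 : 0 < T := by linarith
    rw [Real.rpow_def_of_pos hT0]
    refine log_max e4 hj2 (hT₀ T j e5 le_rfl) ⟨hT0.le, le_rfl⟩ _ ?_
    have e6 : j ^ 2 * l = (2 * κ + ε) * L * j := by
      rw [hj]
      field_simp
    show 7 + 2 * Real.log j + 2 * l + L + j ^ 2 * l ≤ 2 * j * (L * (κ + ε))
    rw [e6]
    have h3 : 2 * Real.log j ≤ 2 * j := by
      have h4 := Real.log_le_sub_one_of_pos (x := j) (by linarith)
      linarith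
    have h5 : 2 * j ≤ ε / 2 * L * j := by
      rw [div_le_iff₀ hε] at e3
      have : 2 ≤ ε / 2 * L := by linarith
      exact mul_le_mul_of_nonneg_right this (by linarith)
    have h6 : 4 * L ≤ ε / 2 * L * j := by
      rw [div_le_iff₀ hε] at hj8
      nlinarith
    nlinarith
  · intro h ε hε
    obtain ⟨t₀, ht₀⟩ := h (ε / 2) (by positivity)
    have hc : 0 < κ + ε / 2 := by positivity
    have h1 := sup_of (f := fun t => (κ + ε / 2) * Real.log t) (t₀ := max t₀ 1) (by
      intro t ht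
      have ht0 : 0 < t := lt_of_lt_of_le one_pos ((le_max_right _ _).trans ht)
      have := ht₀ t ((le_max_left _ _).trans ht)
      rw [Real.rpow_def_of_pos ht0, mul_comm] at this
      exact this) (Real.tendsto_log_atTop.const_mul_atTop hc) (by
      filter_upwards [eventually_gt_atTop 0] with t ht T hT
      exact mul_le_mul_of_nonneg_left (Real.log_le_log ht hT) hc.le)
    obtain ⟨T₀, hT₀⟩ := eventually_atTop.1 (h1.and ((ev_ll (c := ε / 2) (by positivity)).and
      (eventually_ge_atTop 1000)))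
    refine ⟨T₀, fun T k hT hk => ?_⟩
    obtain ⟨e1, e2, e3⟩ := hT₀ T hT
    have hl0 : 0 < Real.log T := by linarith [log_ge e3]
    have hl1 : 0 < Real.log (Real.log T) := by linarith [llog_ge e3]
    rw [← mul_div_assoc, div_le_iff₀ hl1] at hk
    refine good_of_max e3 e1 ?_ ?_
    · by_contra hc
      rw [not_le] at hc
      have : k * Real.log (Real.log T) < 2 * Real.log (Real.log T) := by gcongr
      nlinarith [mul_nonneg hκ hl0.le]
    · linarith

/-- (C) the maximum from the orders `A √(log T / log log T)` -/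
theorem sharp {A : ℝ} (hA : 0 < A)
    (h : ∀ᶠ T : ℝ in atTop, Good (A * Real.sqrt (Real.log T / Real.log (Real.log T))) T)
    {ε : ℝ} (hε : 0 < ε) : ∃ T₀ : ℝ, ∀ t : ℝ, T₀ ≤ t →
      Z t ≤ Real.exp ((A / 2 + 1 / (2 * A) + ε) * Real.sqrt (Real.log t * Real.log (Real.log t))) := by
  obtain ⟨T₀, hT₀⟩ := eventually_atTop.1 (h.and ((ev_ll (c := A ^ 2 / 4) (by positivity)).and
    ((ev_ll (c := ε * A / 4) (by positivity)).and ((ev_L (14 / (ε * A))).and
    ((ev_L ((2 / ε) ^ 2)).and ((eventually_ge_atTop 1000)))))))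
  refine ⟨T₀, fun T hT => ?_⟩
  obtain ⟨e0, e1, e2, e3, e4, e5⟩ := hT₀ T hT
  have hl := log_ge e5
  have hll := llog_ge e5
  set L := Real.log T with hL
  set l := Real.log L with hl'
  have hL0 : 0 < L := by linarith
  have hl0 : 0 < l := by linarith
  set s := Real.sqrt (L * l) with hs
  set q := Real.sqrt (L / l) with hq
  have hq0 : 0 < q := Real.sqrt_pos.2 (by positivity)
  have hs0 : 0 < s := Real.sqrt_pos.2 (by positivity)
  have hq2 : q ^ 2 = L / l := Real.sq_sqrt (by positivity)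
  have hs2 : s ^ 2 = L * l := Real.sq_sqrt (by positivity)
  have hqs : q * l = s := by
    have : (q * l) ^ 2 = s ^ 2 := by
      rw [mul_pow, hq2, hs2]
      field_simp
    exact (pow_left_inj₀ (by positivity) hs0.le (by norm_num)).1 this
  have hqL : q * s = L := by
    rw [← hqs]
    calc q * (q * l) = q ^ 2 * l := by ring
      _ = L := by rw [hq2]; field_simp
  have hj2 : 2 ≤ A * q := by
    have h1 : 2 ^ 2 ≤ (A * q) ^ 2 := by
      rw [mul_pow, hq2, ← mul_div_assoc, le_div_iff₀ hl0]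
      linarith
    exact le_of_sq_le_sq h1 (by positivity)
  refine log_max e5 hj2 e0 ⟨by linarith, le_rfl⟩ _ ?_
  show 7 + 2 * Real.log (A * q) + 2 * l + L + (A * q) ^ 2 * l ≤
    2 * (A * q) * ((A / 2 + 1 / (2 * A) + ε) * s)
  have e6 : 2 * (A * q) * ((A / 2 + 1 / (2 * A) + ε) * s) =
      (A * q) ^ 2 * l + L + 2 * ε * A * L := by
    have : q ^ 2 * l = L := by rw [hq2]; field_simp
    calc 2 * (A * q) * ((A / 2 + 1 / (2 * A) + ε) * s)
        = (A ^ 2 + 1 + 2 * ε * A) * (q * s) := by field_simp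
      _ = (A ^ 2 + 1 + 2 * ε * A) * L := by rw [hqL]
      _ = A ^ 2 * (q ^ 2 * l) + L + 2 * ε * A * L := by rw [this]; ring
      _ = _ := by ring
  rw [e6]
  have hεA : 0 < ε * A := by positivity
  have h1 : 14 ≤ L * (ε * A) := by rwa [div_le_iff₀ hεA] at e3
  have h2 : Real.log (A * q) ≤ A * q := by
    have := Real.log_le_sub_one_of_pos (x := A * q) (by positivity)
    linarith
  have h3 : q ≤ ε / 2 * L := by
    have h4 : q ^ 2 ≤ (ε / 2 * L) ^ 2 := by
      rw [hq2]
      calc L / l ≤ L := div_le_self hL0.le (by linarith)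
        _ = L * 1 := (mul_one _).symm
        _ ≤ L * ((ε / 2) ^ 2 * L) := by
            apply mul_le_mul_of_nonneg_left _ hL0.le
            calc (1:ℝ) = (ε / 2) ^ 2 * (2 / ε) ^ 2 := by field_simp
              _ ≤ (ε / 2) ^ 2 * L := by gcongr
        _ = (ε / 2 * L) ^ 2 := by ring
    exact le_of_sq_le_sq h4 (by positivity)
  have h5 : A * q ≤ A * (ε / 2 * L) := by gcongr
  nlinarith

/-- (C') the orders from the maximum -/
theorem sharp' {c : ℝ} (hc : 0 < c)
    (h : ∃ t₀ : ℝ, ∀ t : ℝ, t₀ ≤ t →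
      Z t ≤ Real.exp (c * Real.sqrt (Real.log t * Real.log (Real.log t)))) :
    ∃ T₀ : ℝ, ∀ T k : ℝ, T₀ ≤ T →
      2 * c * Real.sqrt (Real.log T / Real.log (Real.log T)) ≤ k → Good k T := by
  obtain ⟨t₀, ht₀⟩ := h
  have hll : Tendsto (fun T : ℝ => Real.log (Real.log T)) atTop atTop :=
    Real.tendsto_log_atTop.comp Real.tendsto_log_atTop
  have h1 := sup_of (f := fun t => c * Real.sqrt (Real.log t * Real.log (Real.log t))) ht₀
    ((Real.tendsto_sqrt_atTop.comp (Real.tendsto_log_atTop.atTop_mul_atTop₀ hll)).const_mul_atTop hc)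
    (by
      filter_upwards [eventually_ge_atTop 1000] with t ht T hT
      have a1 := log_ge ht
      have a2 := llog_ge ht
      have a3 : Real.log t ≤ Real.log T := Real.log_le_log (by linarith) hT
      have a4 : Real.log (Real.log t) ≤ Real.log (Real.log T) := Real.log_le_log (by linarith) a3
      have a5 : 0 ≤ Real.log T := by linarith
      gcongr)
  obtain ⟨T₀, hT₀⟩ := eventually_atTop.1 (h1.and ((ev_ll (c := c ^ 2) (by positivity)).and
    (eventually_ge_atTop 1000)))
  refine ⟨T₀, fun T k hT hk => ?_⟩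
  obtain ⟨e1, e2, e3⟩ := hT₀ T hT
  have hl0 : 0 < Real.log T := by linarith [log_ge e3]
  have hl1 : 0 < Real.log (Real.log T) := by linarith [llog_ge e3]
  have hq1 : 1 ≤ c * Real.sqrt (Real.log T / Real.log (Real.log T)) := by
    have h2 : 1 ^ 2 ≤ (c * Real.sqrt (Real.log T / Real.log (Real.log T))) ^ 2 := by
      rw [mul_pow, Real.sq_sqrt (by positivity), ← mul_div_assoc, le_div_iff₀ hl1]
      linarith
    exact le_of_sq_le_sq h2 (by positivity)
  refine good_of_max e3 e1 (by linarith) ?_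
  have h3 : Real.sqrt (Real.log T / Real.log (Real.log T)) * Real.log (Real.log T) =
      Real.sqrt (Real.log T * Real.log (Real.log T)) := by
    have h4 : (Real.sqrt (Real.log T / Real.log (Real.log T)) * Real.log (Real.log T)) ^ 2 =
        Real.sqrt (Real.log T * Real.log (Real.log T)) ^ 2 := by
      rw [mul_pow, Real.sq_sqrt (by positivity), Real.sq_sqrt (by positivity)]
      field_simp
    exact (pow_left_inj₀ (by positivity) (by positivity) (by norm_num)).1 h4
  rw [← h3]
  have h5 : 2 * c * Real.sqrt (Real.log T / Real.log (Real.log T)) * Real.log (Real.log T) ≤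
      k * Real.log (Real.log T) := by gcongr
  linarith

end Rd

end Pool.Agent.V5helper33.ZM
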