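import Pool.Agent.V5helper33.ZM.Bern
import Pool.Agent.Helper625.ZF

set_option autoImplicit false

/-!
# The maximum of the zeta function on the critical line and its moments (helper33)
-/

namespace Pool.Agent.V5helper33.ZM

open Complex Set Filter Topology MeasureTheory

/-- the mean value of a power near a maximum, after `t = t0 - σ r (1 - cos w)` -/
lemma mean_lower {g : ℝ → ℝ} (hg : Continuous g) (hg0 : ∀ t, 0 ≤ g t) {T t0 r σ V h p : ℝ}
    (hσ : σ = 1 ∨ σ = -1) (hr : 0 < r) (hh : 0 < h) (hh2 : h ≤ Real.pi / 2) (hp : 1 ≤ p)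
    (hV : 0 ≤ V)
    (hlow : ∀ w : ℝ, 0 ≤ w → w ≤ h → V * (1 - w / h) ≤ g (t0 - σ * r * (1 - Real.cos w)))
    (h0 : 0 ≤ t0) (hT : t0 ≤ T) (ha : 0 ≤ t0 - σ * r * (1 - Real.cos h))
    (hb : t0 - σ * r * (1 - Real.cos h) ≤ T) :
    V ^ p * (r * (2 / Real.pi) * (h ^ 2 / ((p + 1) * (p + 2)))) ≤ ∫ t in (0:ℝ)..T, g t ^ p := by
  set φ : ℝ → ℝ := fun w => t0 - σ * r * (1 - Real.cos w) with hφ
  have hgp : Continuous fun t => g t ^ p := hg.rpow_const fun _ => Or.inr (by linarith)
  have hgp0 : ∀ t, 0 ≤ g t ^ p := fun t => Real.rpow_nonneg (hg0 t) _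
  have hder : ∀ w : ℝ, HasDerivAt φ (-(σ * r * Real.sin w)) w := by
    intro w
    have h1 : HasDerivAt (fun w : ℝ => 1 - Real.cos w) (Real.sin w) w := by
      simpa using (Real.hasDerivAt_cos w).const_sub 1
    exact (h1.const_mul (σ * r)).const_sub t0
  have I1 := intervalIntegral.integral_comp_mul_deriv (a := 0) (b := h) (f := φ)
    (f' := fun w => -(σ * r * Real.sin w)) (g := fun t => g t ^ p) (fun w _ => hder w)
    (by fun_prop) hgp
  have e0 : φ 0 = t0 := by simp [hφ]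
  have I2 : ∫ w in (0:ℝ)..h, g (φ w) ^ p * (r * Real.sin w) =
      -σ * ∫ t in t0..φ h, g t ^ p := by
    rw [← e0, ← I1, ← intervalIntegral.integral_const_mul]
    apply intervalIntegral.integral_congr
    intro w _
    simp only [Function.comp]
    have : σ * σ = 1 := by rcases hσ with h | h <;> rw [h] <;> norm_num
    linear_combination (-(g (φ w) ^ p * (r * Real.sin w))) * this
  have I3 : ∫ w in (0:ℝ)..h, g (φ w) ^ p * (r * Real.sin w) ≤ ∫ t in (0:ℝ)..T, g t ^ p := by
    rw [I2]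
    have hcos : 0 ≤ 1 - Real.cos h := by linarith [Real.cos_le_one h]
    rcases hσ with hs | hs
    · subst hs
      have hle : φ h ≤ t0 := by
        show t0 - 1 * r * (1 - Real.cos h) ≤ t0
        nlinarith [mul_nonneg hr.le hcos]
      rw [neg_one_mul, ← intervalIntegral.integral_symm]
      exact intervalIntegral.integral_mono_interval ha hle hT
        (Eventually.of_forall hgp0) (hgp.intervalIntegrable _ _)
    · subst hs
      have hle : t0 ≤ φ h := by
        show t0 ≤ t0 - (-1) * r * (1 - Real.cos h)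
        nlinarith [mul_nonneg hr.le hcos]
      rw [neg_neg, one_mul]
      exact intervalIntegral.integral_mono_interval h0 hle hb
        (Eventually.of_forall hgp0) (hgp.intervalIntegrable _ _)
  have e3 : V ^ p * (r * (2 / Real.pi) * (h ^ 2 / ((p + 1) * (p + 2)))) =
      ∫ w in (0:ℝ)..h, (V ^ p * (r * (2 / Real.pi))) * (w * (1 - w / h) ^ p) := by
    rw [intervalIntegral.integral_const_mul, beta_int hh hp]
    ring
  rw [e3]
  refine le_trans ?_ I3
  · have hc1 : Continuous fun w : ℝ => (V ^ p * (r * (2 / Real.pi))) * (w * (1 - w / h) ^ p) := by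
      refine continuous_const.mul (continuous_id.mul
        (Continuous.rpow_const (by fun_prop) fun x => Or.inr (by linarith)))
    have hφc : Continuous φ := by fun_prop
    have hc2 : Continuous fun w : ℝ => g (φ w) ^ p * (r * Real.sin w) :=
      (hgp.comp hφc).mul (by fun_prop)
    apply intervalIntegral.integral_mono_on hh.le (hc1.intervalIntegrable _ _)
      (hc2.intervalIntegrable _ _)
    intro w hw
    have hw1 : 0 ≤ 1 - w / h := by
      rw [sub_nonneg, div_le_one hh]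
      exact hw.2
    have h1 : V ^ p * (1 - w / h) ^ p ≤ g (φ w) ^ p := by
      rw [← Real.mul_rpow hV hw1]
      exact Real.rpow_le_rpow (mul_nonneg hV hw1) (hlow w hw.1 hw.2) (by linarith)
    have h2 : 2 / Real.pi * w ≤ Real.sin w := Real.mul_le_sin hw.1 (hw.2.trans hh2)
    have h3 : 0 ≤ V ^ p * (1 - w / h) ^ p :=
      mul_nonneg (Real.rpow_nonneg hV _) (Real.rpow_nonneg hw1 _)
    have h4 : 0 ≤ 2 / Real.pi * w := mul_nonneg (by positivity) hw.1
    calc V ^ p * (r * (2 / Real.pi)) * (w * (1 - w / h) ^ p)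
        = (V ^ p * (1 - w / h) ^ p) * (r * (2 / Real.pi * w)) := by ring
      _ ≤ g (φ w) ^ p * (r * Real.sin w) := by
          apply mul_le_mul h1 _ (by positivity) (hgp0 _)
          gcongr

/-- zeta near the critical line -/
lemma zeta_near {s : ℂ} (h1 : 1 / 4 ≤ s.re) (h2 : s.re ≤ 3 / 4) :
    s ≠ 1 ∧ ‖riemannZeta s‖ ≤ 5 + 4 * ‖s‖ := by
  have hs1 : s ≠ 1 := by
    rintro rfl
    rw [one_re] at h2
    norm_num at h2
  have hs0 : 0 < s.re := by linarith
  refine ⟨hs1, ?_⟩
  rw [riemannZeta_eq_inv_sub_add hs1, Pool.Agent.Helper625.ZF.zeta_pos hs0]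
  have e1 : ‖(s - 1)⁻¹‖ ≤ 4 := by
    rw [norm_inv]
    have h3 : 1 / 4 ≤ ‖s - 1‖ := by
      have h4 := neg_le_of_abs_le (abs_re_le_norm (s - 1))
      rw [sub_re, one_re] at h4
      linarith
    calc ‖s - 1‖⁻¹ ≤ (1 / 4 : ℝ)⁻¹ := inv_anti₀ (by norm_num) h3
      _ = 4 := by norm_num
  have e2 : ‖mellin Pool.Agent.Helper625.ZF.f1 (-s)‖ ≤ 4 := by
    rw [Pool.Agent.Helper625.ZF.mellin_f1]
    have hint : IntegrableOn (fun x : ℝ => x ^ (-(s.re + 1))) (Ioi 1) :=
      integrableOn_Ioi_rpow_of_lt (by linarith) one_pos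
    refine (norm_integral_le_of_norm_le hint ?_).trans ?_
    · rw [ae_restrict_iff' measurableSet_Ioi]
      refine Eventually.of_forall fun x hx => ?_
      have hx0 : 0 < x := lt_trans one_pos hx
      rw [norm_mul, norm_cpow_eq_rpow_re_of_pos hx0, norm_real,
        Real.norm_of_nonneg (Int.fract_nonneg _)]
      have e : (-(s + 1)).re = -(s.re + 1) := by simp
      rw [e]
      exact mul_le_of_le_one_right (Real.rpow_nonneg hx0.le _) (Int.fract_lt_one x).le
    · rw [integral_Ioi_rpow_of_lt (by linarith) one_pos, Real.one_rpow]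
      have e : -(s.re + 1) + 1 = -s.re := by ring
      rw [e, neg_div_neg_eq, div_le_iff₀ hs0]
      linarith
  calc ‖(s - 1)⁻¹ + (1 - s * mellin Pool.Agent.Helper625.ZF.f1 (-s))‖
      ≤ ‖(s - 1)⁻¹‖ + (‖(1:ℂ)‖ + ‖s * mellin Pool.Agent.Helper625.ZF.f1 (-s)‖) :=
        (norm_add_le _ _).trans (by gcongr; exact norm_sub_le _ _)
    _ ≤ 4 + (1 + ‖s‖ * 4) := by
        rw [norm_mul, norm_one]
        gcongr
    _ = 5 + 4 * ‖s‖ := by ring

lemma cosh_two : Real.cosh 2 ≤ 4 := by
  rw [Real.cosh_eq]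
  have h1 : Real.exp 2 ≤ 7.4 := by
    have := Real.exp_one_lt_d9
    have e : Real.exp 2 = Real.exp 1 ^ 2 := by rw [← Real.exp_nat_mul]; norm_num
    rw [e]
    nlinarith [Real.exp_pos 1]
  have h2 : Real.exp (-2) ≤ 0.6 := by
    rw [Real.exp_neg]
    have h3 : (2:ℝ) ≤ Real.exp 2 := by
      have := Real.add_one_le_exp (2:ℝ)
      linarith
    calc (Real.exp 2)⁻¹ ≤ (2:ℝ)⁻¹ := inv_anti₀ (by norm_num) h3
      _ ≤ 0.6 := by norm_num
  linarith

lemma norm_cos_le {w : ℂ} (hw : |w.im| ≤ 2) : ‖Complex.cos w‖ ≤ 4 := by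
  have h1 : ‖Complex.cos w‖ ≤ Real.cosh w.im := by
    rw [Complex.cos, Real.cosh_eq, norm_div]
    have e2 : ‖(2:ℂ)‖ = 2 := by norm_num
    rw [e2]
    gcongr
    refine (norm_add_le _ _).trans (le_of_eq ?_)
    rw [norm_exp, norm_exp]
    have a1 : (w * I).re = -w.im := by simp
    have a2 : (-w * I).re = w.im := by simp
    rw [a1, a2, add_comm]
  refine h1.trans (le_trans ?_ cosh_two)
  rw [Real.cosh_le_cosh]
  rwa [abs_of_pos (by norm_num : (0:ℝ) < 2)]

end Pool.Agent.V5helper33.ZM
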